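import Mathlib
import Pool.Agent.Results.MP_827700_an.UpperContinuity

set_option autoImplicit false

open scoped Pointwise
open MeasureTheory Filter Topology

/-!
# Algebraic entropy and closed cocompact invariant subgroups

`hA μ φ` is the algebraic entropy of `φ`, computed with the Haar measure `μ`: the supremum over all
compact neighbourhoods `C` of `0` of `limsup (1/n) log μ(C + φ C + ... + φ^{n-1} C)`; `restr φ K h`
is the restriction of `φ` to the invariant subgroup `K`. These definitions are those of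
`Pool.Agent.Results.MP_827700_an.UpperContinuity`.
-/

namespace Pool.Agent.Results.MP_5d7a45_an.CocompactSubgroup

open Pool.Agent.Results.MP_827700_an.UpperContinuity

variable {G : Type*} [AddCommGroup G] [TopologicalSpace G] [IsTopologicalAddGroup G]
  [LocallyCompactSpace G] [T2Space G]

/-- A compact set meeting all cosets of a cocompact subgroup. -/
lemma exists_compact (K : AddSubgroup G) [CompactSpace (G ⧸ K)] :
    ∃ D : Set G, IsCompact D ∧ ∀ x : G, ∃ k ∈ K, ∃ d ∈ D, x = k + d := by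
  classical
  obtain ⟨W, hWc, hW0⟩ := exists_compact_mem_nhds (0 : G)
  have hopen : ∀ x : G, IsOpen ((QuotientAddGroup.mk : G → G ⧸ K) '' (x +ᵥ interior W)) :=
    fun x => QuotientAddGroup.isOpenMap_coe _ (isOpen_interior.vadd x)
  have hcov : (Set.univ : Set (G ⧸ K)) ⊆
      ⋃ x : G, (QuotientAddGroup.mk : G → G ⧸ K) '' (x +ᵥ interior W) := by
    intro q _
    obtain ⟨x, rfl⟩ := QuotientAddGroup.mk_surjective q
    simp only [Set.mem_iUnion]
    exact ⟨x, x, ⟨0, mem_interior_iff_mem_nhds.mpr hW0, by simp⟩, rfl⟩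
  obtain ⟨F, hF⟩ := isCompact_univ.elim_finite_subcover _ hopen hcov
  refine ⟨(F : Set G) + W, (F.finite_toSet.isCompact).add hWc, fun x => ?_⟩
  have := hF (Set.mem_univ (QuotientAddGroup.mk x))
  simp only [Set.mem_iUnion, exists_prop] at this
  obtain ⟨y, hy, z, ⟨w, hw, rfl⟩, hz⟩ := this
  rw [QuotientAddGroup.eq] at hz
  refine ⟨-(y +ᵥ w) + x, hz, y + w, ⟨y, hy, w, interior_subset hw, rfl⟩, ?_⟩
  simp only [vadd_eq_add]
  abel

variable [MeasurableSpace G] [BorelSpace G]

/-- The entropy does not exceed the entropy on a closed cocompact invariant subgroup. -/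
lemma hA_le (μ : Measure G) [μ.IsAddHaarMeasure] (φ : G →+ G)
    (hφ : Continuous φ) (K : AddSubgroup G) (hK : IsClosed (K : Set G)) [CompactSpace (G ⧸ K)]
    (h : ∀ x ∈ K, φ x ∈ K) (ν : Measure K) [ν.IsAddHaarMeasure] :
    hA μ φ ≤ hA ν (restr φ K h) := by
  classical
  obtain ⟨D₀, hD₀c, hD₀⟩ := exists_compact K
  refine iSup₂_le ?_
  rintro C₀ ⟨hC₀, hC₀0⟩
  set C : Set G := C₀ ∪ D₀ with hCdef
  have hC : IsCompact C := hC₀.union hD₀c
  have hC0 : C ∈ 𝓝 (0 : G) := mem_of_superset hC₀0 Set.subset_union_left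
  have h0C : (0 : G) ∈ C := mem_of_mem_nhds hC0
  have hmono : HA μ φ C₀ ≤ HA μ φ C := by
    unfold HA
    refine limsup_le_limsup (Eventually.of_forall fun n => ?_)
    refine mul_le_mul_of_nonneg_left ?_ (by positivity)
    exact ENNReal.log_monotone (measure_mono (traj_mono_set φ Set.subset_union_left n))
  refine hmono.trans ?_
  have hemb : IsClosedEmbedding (K.subtype : K → G) := hK.isClosedEmbedding_subtypeVal
  have hcomp : IsCompact (C + φ '' C) := hC.add (hC.image hφ)
  -- the compact subset of `K`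
  let E₁ : Set K := K.subtype ⁻¹' ((C + φ '' C) - C)
  have hE₁c : IsCompact E₁ := by
    refine hemb.isCompact_preimage ?_
    rw [sub_eq_add_neg]
    exact hcomp.add hC.neg
  have hE : C + φ '' C ⊆ K.subtype '' E₁ + C := by
    intro x hx
    obtain ⟨k, hk, d, hd, hxd⟩ := hD₀ x
    have hdC : d ∈ C := Or.inr hd
    refine ⟨k, ⟨⟨k, hk⟩, ?_, rfl⟩, d, hdC, hxd.symm⟩
    refine ⟨x, hx, d, hdC, ?_⟩
    rw [hxd]
    simp
  have hcov := fun n => traj_cover φ hE n
  let E₀ : Set K := E₁ ∪ {0}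
  have hE₀c : IsCompact E₀ := hE₁c.union isCompact_singleton
  have hE₀0 : (0 : K) ∈ E₀ := Or.inr rfl
  have hEE₀ : K.subtype '' E₁ ⊆ K.subtype '' E₀ := Set.image_mono Set.subset_union_left
  let U : Set K := K.subtype ⁻¹' C
  have hUc : IsCompact U := hemb.isCompact_preimage hC
  have hU0 : U ∈ 𝓝 (0 : K) := by
    apply hemb.continuous.continuousAt
    rw [map_zero]
    exact hC0
  have hUz : (0 : K) ∈ U := mem_of_mem_nhds hU0
  let C' : Set K := E₀ + U
  have hC'c : IsCompact C' := hE₀c.add hUc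
  have hC'0 : C' ∈ 𝓝 (0 : K) := by
    refine mem_of_superset hU0 ?_
    intro u hu
    exact ⟨0, hE₀0, u, hu, by simp⟩
  refine le_trans ?_ (le_iSup₂ (f := fun (C : Set K) (_ : IsCompact C ∧ C ∈ 𝓝 (0 : K)) =>
    HA ν (restr φ K h) C) C' ⟨hC'c, hC'0⟩)
  unfold HA
  have hUpos : ν U ≠ 0 := (Measure.measure_pos_of_mem_nhds ν hU0).ne'
  have hUfin : ν U ≠ ⊤ := hUc.measure_lt_top.ne
  let D : Set G := (C - C) + C
  have hDc : IsCompact D := by
    have : IsCompact (C - C) := by rw [sub_eq_add_neg]; exact hC.add hC.neg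
    exact this.add hC
  have hDfin : μ D ≠ ⊤ := hDc.measure_lt_top.ne
  refine limsup_log_le (c := μ D / ν U) (ENNReal.div_ne_top hDfin hUpos) ?_
  intro n hn
  obtain ⟨m, rfl⟩ : ∃ m, n = m + 1 := ⟨n - 1, by omega⟩
  have hTc : IsCompact (traj (restr φ K h) E₀ (m + 1)) := by
    rw [← coe_restrHom]
    exact isCompact_traj (restrHom φ K h) (continuous_restr φ hφ K h) hE₀c _
  obtain ⟨S, hSE, hES, hcard⟩ := packing ν hTc hUc hU0
  have hsub : traj (restr φ K h) E₀ (m + 1) + U ⊆
      traj (restr φ K h) C' (m + 1) := by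
    rw [← coe_restrHom]
    exact traj_add_subset (restrHom φ K h) hUz m
  have h1 : traj φ C (m + 1) ⊆ ⋃ s ∈ S, (K.subtype s +ᵥ D) := by
    intro x hx
    have hx1 := hcov (m + 1) (traj_subset_succ φ h0C (m + 1) hx)
    obtain ⟨y, hy, c, hc, rfl⟩ := hx1
    have hy1 : y ∈ K.subtype '' (traj (restr φ K h) E₀ (m + 1)) := by
      rw [image_traj]
      exact traj_mono_set φ hEE₀ _ hy
    obtain ⟨z, hz, rfl⟩ := hy1
    obtain ⟨s, hs, d, ⟨u, hu, v, hv, rfl⟩, rfl⟩ := hES hz
    simp only [Set.mem_iUnion]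
    refine ⟨s, hs, (K.subtype u - K.subtype v) + c,
      ⟨_, ⟨_, hu, _, hv, rfl⟩, c, hc, rfl⟩, ?_⟩
    simp [add_assoc]
  calc μ (traj φ C (m + 1)) ≤ μ (⋃ s ∈ S, (K.subtype s +ᵥ D)) := measure_mono h1
    _ ≤ ∑ s ∈ S, μ (K.subtype s +ᵥ D) := measure_biUnion_finset_le _ _
    _ = (S.card : ENNReal) * μ D := by
        rw [Finset.sum_congr rfl (fun s _ => measure_vadd μ (K.subtype s) D)]; simp
    _ = (μ D / ν U) * ((S.card : ENNReal) * ν U) := by
        rw [ENNReal.div_eq_inv_mul, mul_comm (S.card : ENNReal) (ν U), ← mul_assoc,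
          mul_assoc _ (μ D), mul_comm (μ D), ← mul_assoc, ENNReal.inv_mul_cancel hUpos hUfin,
          one_mul, mul_comm]
    _ ≤ (μ D / ν U) * ν (traj (restr φ K h) E₀ (m + 1) + U) :=
        mul_le_mul_right hcard _
    _ ≤ (μ D / ν U) * ν (traj (restr φ K h) C' (m + 1)) :=
        mul_le_mul_right (measure_mono hsub) _

/-- **Algebraic entropy and cocompact subgroups.** `G` is a locally compact Hausdorff abelian group,
`φ` a continuous endomorphism. If `K` is a `φ`-invariant subgroup such that `G / K` is compact, and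
`K` is discrete (a uniform discrete subgroup) or just closed in `G`, then
`h_A(φ) = h_A(φ|_K)`, whatever Haar measures `μ` on `G` and `ν` on `K` are used. -/
theorem result (μ : Measure G) [μ.IsAddHaarMeasure] (φ : G →+ G) (hφ : Continuous φ)
    (K : AddSubgroup G) (hinv : ∀ x ∈ K, φ x ∈ K) [CompactSpace (G ⧸ K)]
    (hK : DiscreteTopology K ∨ IsClosed (K : Set G))
    (ν : Measure K) [ν.IsAddHaarMeasure] :
    hA μ φ = hA ν (restr φ K hinv) := by
  have hK' : IsClosed (K : Set G) := by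
    rcases hK with hK | hK
    · exact AddSubgroup.isClosed_of_discrete
    · exact hK
  exact le_antisymm (hA_le μ φ hφ K hK' hinv ν) (hA_closed_subgroup_le μ φ hφ K hK' hinv ν)

end Pool.Agent.Results.MP_5d7a45_an.CocompactSubgroup
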